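import Pool.Agent.W782.ND.CN
import Pool.Agent.Y229.CF.Stm

set_option autoImplicit false

/-! Project CF, part CNP: the connection lemma relative to a submodule. -/

namespace Pool.Agent.Y239.CF

open MvPolynomial Pool.Agent.W425.ND Pool.Agent.Y229.CF

theorem cnp : TaskCNP := by
  intro k σ M _ _ _ _ _ nb hnb Z W Z0 F hF hWZ hZ0Z hZF hnZ hnW hnZ0 β hβ x hx
  have hwd : ∀ a b : M, a - b ∈ W → W.mkQ (nb a) = W.mkQ (nb b) := by
    intro a b h
    have h1 := hnW _ h
    rw [map_sub] at h1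
    rw [← sub_eq_zero, ← map_sub, Submodule.mkQ_apply, Submodule.Quotient.mk_eq_zero]
    exact h1
  let nb' : (M ⧸ W) →+ (M ⧸ W) :=
    { toFun := fun x => Quotient.liftOn' x (fun y => W.mkQ (nb y)) (fun a b h =>
        hwd a b ((Submodule.quotientRel_def W).1 h))
      map_zero' := by
        show W.mkQ (nb 0) = 0
        rw [map_zero, map_zero]
      map_add' := by
        rintro ⟨a⟩ ⟨b⟩
        show W.mkQ (nb (a + b)) = W.mkQ (nb a) + W.mkQ (nb b)
        rw [map_add, map_add] }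
  have hnb' : ∀ y : M, nb' (W.mkQ y) = W.mkQ (nb y) := fun y => rfl
  have hker : ∀ y ∈ W, W.mkQ y = 0 := by
    intro y hy
    rw [Submodule.mkQ_apply, Submodule.Quotient.mk_eq_zero]
    exact hy
  have hle : Z.map W.mkQ ≤ F.map W.mkQ := by
    rintro _ ⟨y, hy, rfl⟩
    obtain ⟨f, hf, w, hw, rfl⟩ := Submodule.mem_sup.1 (hZF hy)
    rw [map_add, hker w hw, add_zero]
    exact ⟨f, hf, rfl⟩
  have hfg : (Z.map W.mkQ).FG := by
    haveI : IsNoetherian (MvPolynomial σ (PowerSeries k)) (F.map W.mkQ) :=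
      isNoetherian_of_fg_of_noetherian _ (hF.map _)
    exact isNoetherian_submodule.1 this _ hle
  have main := Pool.Agent.W782.ND.cn k σ (M ⧸ W) nb' (by
      intro p x
      obtain ⟨y, rfl⟩ := W.mkQ_surjective x
      rw [← map_smul, hnb', hnb, map_add, map_smul, map_smul, hnb'])
    (Z.map W.mkQ) ⊥ (Z0.map W.mkQ) hfg bot_le (Submodule.map_mono hZ0Z)
    (by
      rintro _ ⟨y, hy, rfl⟩
      exact ⟨nb y, hnZ y hy, (hnb' y).symm⟩)
    (by
      intro x hx
      rw [Submodule.mem_bot] at hx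
      rw [hx, map_zero]
      exact Submodule.zero_mem _)
    (by
      rintro _ ⟨y, hy, rfl⟩
      exact ⟨nb y, hnZ0 y hy, (hnb' y).symm⟩)
    β
    (by
      rintro _ ⟨y, hy, rfl⟩
      obtain ⟨w, hw, z, hz, e⟩ := hβ y hy
      refine ⟨0, Submodule.zero_mem _, W.mkQ z, ⟨z, hz, rfl⟩, ?_⟩
      rw [← map_smul, e, map_add, hker w hw, map_smul])
    (W.mkQ x) ⟨x, hx, rfl⟩
  rw [Submodule.mem_bot, ← map_smul, Submodule.mkQ_apply, Submodule.Quotient.mk_eq_zero] at main
  exact main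

end Pool.Agent.Y239.CF
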