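import Pool.Agent.W13.ND.K2
import Pool.Agent.Y229.CF.Stm

set_option autoImplicit false

/-! Project CF, part K2P: compact faces are exposed by positive vectors. -/

namespace Pool.Agent.Y239.CF

open Finset Pool.Agent.W13.ND

theorem k2p : Pool.Agent.Y229.CF.TaskK2P := by
  classical
  intro r N v J hJ H
  set p : Fin r → (Option (Fin N) → ℚ) := fun j o => o.elim 1 (fun i => (v j i : ℚ)) with hp
  set W : Submodule ℚ (Option (Fin N) → ℚ) := Submodule.span ℚ (p '' (J : Set (Fin r))) with hW
  set e : Fin r ⊕ Fin N → (Option (Fin N) → ℚ) :=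
    Sum.elim p (fun i => Pi.single (some i) 1) with he
  have hWJ : ∀ j ∈ J, p j ∈ W := fun j hj => Submodule.subset_span ⟨j, hj, rfl⟩
  rcases gordan (k := ℚ) ((univ.filter fun j => j ∉ J).disjSum (univ : Finset (Fin N))) (_ ⧸ W)
    (fun j => W.mkQ (e j)) with ⟨φ, hφ⟩ | ⟨l, hl0, ⟨i0, hi0, hi0'⟩, hl⟩
  · set Φ : (Option (Fin N) → ℚ) →ₗ[ℚ] ℚ := φ.comp W.mkQ with hΦ
    have hΦJ : ∀ j ∈ J, Φ (p j) = 0 := by
      intro j hj
      have : W.mkQ (p j) = 0 := by
        rw [Submodule.mkQ_apply, Submodule.Quotient.mk_eq_zero]; exact hWJ j hj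
      rw [hΦ, LinearMap.comp_apply, this, map_zero]
    have hΦn : ∀ j, j ∉ J → 0 < Φ (p j) := by
      intro j hj
      exact hφ (Sum.inl j) (by simp [hj])
    have hΦp : ∀ i : Fin N, 0 < Φ (Pi.single (some i) 1) := by
      intro i
      exact hφ (Sum.inr i) (by simp)
    have hexp : ∀ x, Φ x = ∑ o, x o * Φ (Pi.single o 1) := by
      intro x
      conv_lhs => rw [LinearMap.pi_apply_eq_sum_univ Φ x]
      refine Finset.sum_congr rfl ?_
      intro o _
      rw [smul_eq_mul]
      congr 2
      funext o'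
      simp [Pi.single_apply, eq_comm]
    have hval : ∀ j, ∑ i, ((Φ (Pi.single (some i) 1) : ℚ) : ℝ) * (v j i : ℝ) =
        ((Φ (p j) - Φ (Pi.single none 1) : ℚ) : ℝ) := by
      intro j
      rw [hexp (p j), Fintype.sum_option]
      push_cast
      simp [hp, mul_comm]
    refine ⟨fun i => ((Φ (Pi.single (some i) 1) : ℚ) : ℝ), ?_, ?_⟩
    · intro i
      show (0:ℝ) < ((Φ (Pi.single (some i) 1) : ℚ) : ℝ)
      exact_mod_cast hΦp i
    intro j
    unfold Pool.Agent.W425.ND.onFace
    simp only [hval]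
    constructor
    · intro h
      by_contra hj
      obtain ⟨j0, hj0⟩ := hJ
      have h1 := h j0
      rw [hΦJ j0 hj0] at h1
      have h2 := hΦn j hj
      have h3 : Φ (p j) - Φ (Pi.single none 1) ≤ 0 - Φ (Pi.single none 1) := by exact_mod_cast h1
      linarith
    · intro hj j'
      rw [hΦJ j hj]
      have h2 : 0 ≤ Φ (p j') := by
        by_cases hj' : j' ∈ J
        · rw [hΦJ j' hj']
        · exact (hΦn j' hj').le
      have h3 : 0 - Φ (Pi.single none 1) ≤ Φ (p j') - Φ (Pi.single none 1) := by linarith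
      exact_mod_cast h3
  · exfalso
    rw [sum_disjSum] at hl
    have hmem : ∑ i ∈ univ.filter (fun j => j ∉ J), l (Sum.inl i) • p i +
        ∑ i : Fin N, l (Sum.inr i) • (Pi.single (some i) (1:ℚ) : Option (Fin N) → ℚ) ∈ W := by
      rw [← Submodule.Quotient.mk_eq_zero, ← Submodule.mkQ_apply, map_add, map_sum, map_sum, ← hl]
      congr 1
    obtain ⟨μ, hμJ, hμ⟩ : ∃ μ : Fin r → ℚ, (∀ j, j ∉ J → μ j = 0) ∧
        ∑ j, μ j • p j = ∑ i ∈ univ.filter (fun j => j ∉ J), l (Sum.inl i) • p i +
        ∑ i : Fin N, l (Sum.inr i) • (Pi.single (some i) (1:ℚ) : Option (Fin N) → ℚ) := by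
      rw [hW, Finsupp.mem_span_image_iff_linearCombination] at hmem
      obtain ⟨μ, hμ1, hμ2⟩ := hmem
      refine ⟨μ, ?_, ?_⟩
      · intro j hj
        by_contra hne
        exact hj (hμ1 (Finsupp.mem_support_iff.2 hne))
      · rw [← hμ2, Finsupp.linearCombination_apply, Finsupp.sum_fintype]
        simp
    set ρ : Option (Fin N) → ℚ := fun o => o.elim 0 (fun i => l (Sum.inr i)) with hρ
    have hρ1 : ∀ o, (∑ i : Fin N, l (Sum.inr i) •
        (Pi.single (some i) (1:ℚ) : Option (Fin N) → ℚ)) o = ρ o := by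
      intro o
      rw [Finset.sum_apply]
      cases o with
      | none => simp [hρ]
      | some i =>
        rw [Finset.sum_eq_single i]
        · simp [hρ]
        · intro b _ hb
          simp [hb.symm]
        · simp
    set κ : Fin r → ℚ := fun j => if j ∈ J then max (-μ j) 0 else l (Sum.inl j) with hκ
    set κ' : Fin r → ℚ := fun j => max (μ j) 0 with hκ'
    have hκ0 : ∀ j, 0 ≤ κ j := by
      intro j
      simp only [hκ]
      split_ifs with h
      · exact le_max_right _ _
      · exact hl0 (Sum.inl j) (by simp [h])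
    have hκ0' : ∀ j, 0 ≤ κ' j := fun j => le_max_right _ _
    have hsum : ∀ o, ∑ j, κ j * p j o + ρ o = ∑ j, κ' j * p j o := by
      intro o
      have h1 := congrFun hμ o
      rw [Pi.add_apply, hρ1, Finset.sum_apply, Finset.sum_apply, Finset.sum_filter] at h1
      have h2 : ∑ j, (κ' j * p j o - κ j * p j o) =
          ∑ j, ((μ j • p j) o - if j ∉ J then (l (Sum.inl j) • p j) o else 0) := by
        refine Finset.sum_congr rfl ?_
        intro j _
        simp only [hκ, hκ', Pi.smul_apply, smul_eq_mul]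
        by_cases hj : j ∈ J
        · simp only [hj, not_true_eq_false, if_false, if_true, sub_zero]
          rcases le_total (μ j) 0 with h | h
          · rw [max_eq_right h, max_eq_left (by linarith)]; ring
          · rw [max_eq_left h, max_eq_right (by linarith)]; ring
        · simp only [hj, not_false_eq_true, if_false, if_true, hμJ j hj]
          simp
      rw [Finset.sum_sub_distrib, Finset.sum_sub_distrib, h1] at h2
      linarith
    obtain ⟨D, hD, hD2⟩ := clear κ hκ0
    obtain ⟨D', hD', hD2'⟩ := clear κ' hκ0'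
    obtain ⟨n, hn⟩ := hD2 (D * D') (Dvd.intro _ rfl)
    obtain ⟨n', hn'⟩ := hD2' (D * D') (Dvd.intro_left _ rfl)
    have hDDp : (0:ℚ) < ((D * D' : ℕ) : ℚ) := by
      have : 0 < D * D' := Nat.mul_pos hD hD'
      exact_mod_cast this
    have hDD : ((D * D' : ℕ) : ℚ) ≠ 0 := hDDp.ne'
    have key : ∀ o, ∑ j, (n j : ℚ) * p j o + ((D * D' : ℕ) : ℚ) * ρ o =
        ∑ j, (n' j : ℚ) * p j o := by
      intro o
      have := congrArg (fun x => ((D * D' : ℕ) : ℚ) * x) (hsum o)
      simp only [mul_add, Finset.mul_sum] at this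
      simp only [hn, hn']
      have e1 : ∑ j, ((D * D' : ℕ) : ℚ) * κ j * p j o = ∑ j, ((D * D' : ℕ) : ℚ) * (κ j * p j o) :=
        Finset.sum_congr rfl fun j _ => by ring
      have e2 : ∑ j, ((D * D' : ℕ) : ℚ) * κ' j * p j o =
          ∑ j, ((D * D' : ℕ) : ℚ) * (κ' j * p j o) :=
        Finset.sum_congr rfl fun j _ => by ring
      rw [e1, e2]
      exact this
    have k0 : ∑ j, n j = ∑ j, n' j := by
      have := key none
      simp only [hp, hρ, Option.elim, mul_one, mul_zero, add_zero] at this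
      exact_mod_cast this
    have hρ0 : ∀ i, 0 ≤ ρ (some i) := fun i => hl0 (Sum.inr i) (by simp)
    have k1' : ∀ i, ((∑ j, n j * v j i : ℕ) : ℚ) + ((D * D' : ℕ) : ℚ) * ρ (some i) =
        ((∑ j, n' j * v j i : ℕ) : ℚ) := by
      intro i
      have := key (some i)
      simp only [hp, Option.elim] at this
      push_cast at this ⊢
      exact this
    have k1 : ∀ i, ∑ j, n j * v j i ≤ ∑ j, n' j * v j i := by
      intro i
      have h1 := k1' i
      have h2 := mul_nonneg hDDp.le (hρ0 i)
      have h3 : ((∑ j, n j * v j i : ℕ) : ℚ) ≤ ((∑ j, n' j * v j i : ℕ) : ℚ) := by linarith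
      exact_mod_cast h3
    have k2 : ∀ j, n' j ≠ 0 → j ∈ J := by
      intro j hj
      by_contra hjJ
      apply hj
      have h1 := hn' j
      simp only [hκ', hμJ j hjJ, max_self, mul_zero] at h1
      exact_mod_cast h1
    have k3 := H n n' k0 k1 k2
    rcases i0 with j0 | i0
    · have hi0J : j0 ∉ J := by simpa using hi0
      apply hi0J
      apply k3.2
      intro h0
      have h1 := hn j0
      rw [h0] at h1
      simp only [hκ, hi0J, if_false] at h1
      have h2 : ((D * D' : ℕ) : ℚ) * l (Sum.inl j0) = 0 := by rw [← h1]; simp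
      rcases mul_eq_zero.1 h2 with h | h
      · exact hDD h
      · exact hi0' h
    · have h1 := k1' i0
      rw [k3.1 i0] at h1
      have h2 : ((D * D' : ℕ) : ℚ) * ρ (some i0) = 0 := by linarith
      rcases mul_eq_zero.1 h2 with h | h
      · exact hDD h
      · exact hi0' h

end Pool.Agent.Y239.CF
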