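import Pool.Agent.Y229.CF.Stm

set_option autoImplicit false

/-! Project CF, part KOUP: the local theorem of Kouchnirenko from the parts. -/

namespace Pool.Agent.Y239.CF

open MvPolynomial Pool.Agent.W425.ND Pool.Agent.Y229.CF

lemma hulP_add {r N : ℕ} {v : Fin r → Fin N → ℕ} {m m' : ℕ} {c c' : Fin N →₀ ℕ}
    (h : HulP v m c) (h' : HulP v m' c') : HulP v (m + m') (c + c') := by
  obtain ⟨l, hl, hs, hv⟩ := h
  obtain ⟨l', hl', hs', hv'⟩ := h'
  refine ⟨fun j => l j + l' j, fun j => add_nonneg (hl j) (hl' j), ?_, fun i => ?_⟩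
  · rw [Finset.sum_add_distrib, hs, hs', Nat.cast_add]
  · simp only [add_mul, Finset.sum_add_distrib]
    rw [Finsupp.add_apply, Nat.cast_add]
    exact add_le_add (hv i) (hv' i)

lemma supP_mono {r N : ℕ} {v : Fin r → Fin N → ℕ} {m m' : ℕ} {c : Fin N →₀ ℕ}
    {p : MvPolynomial (Fin N) ℂ} (h : HulP v m c) (hp : SupP v m' p) :
    SupP v (m + m') (monomial c 1 * p) := by
  intro e he
  rw [coeff_monomial_mul'] at he
  split_ifs at he with hce
  · have h1 : coeff (e - c) p ≠ 0 := by
      intro h0
      exact he (by rw [h0, mul_zero])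
    have h2 := hulP_add h (hp _ h1)
    rwa [add_tsub_cancel_of_le hce] at h2
  · exact absurd rfl he

lemma stepP {r N : ℕ} (hK1 : TaskK1P) (v : Fin r → Fin N → ℕ) :
    ∀ (k M : ℕ) (c : Fin N →₀ ℕ), HulP v M c → N + 1 + k ≤ M →
      ∃ (α : Fin r → ℕ) (c' : Fin N →₀ ℕ), ∑ j, α j = k ∧
        (∀ i, c i = (∑ j, α j * v j i) + c' i) ∧ HulP v (M - k) c' := by
  intro k
  induction k with
  | zero =>
    intro M c hc _
    refine ⟨fun _ => 0, c, by simp, fun i => by simp, by simpa using hc⟩
  | succ k ih =>
    intro M c hc hM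
    obtain ⟨α, c', hα, hcc, hc'⟩ := ih M c hc (by omega)
    obtain ⟨j, c'', hj, hc''⟩ := hK1 r N v (M - k) c' hc' (by omega)
    refine ⟨fun i => α i + if i = j then 1 else 0, c'', ?_, fun i => ?_, ?_⟩
    · rw [Finset.sum_add_distrib, hα]
      simp
    · rw [hcc i, hj i]
      simp only [add_mul, Finset.sum_add_distrib, ite_mul, one_mul, zero_mul,
        Finset.sum_ite_eq', Finset.mem_univ, if_true]
      ring
    · have : M - k - 1 = M - (k + 1) := by omega
      rwa [this] at hc''

lemma rlP {S : Type} [CommRing S] {N : ℕ} (x p0 f : S) (p g y q : Fin N → S) :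
    x * (p0 * f + ∑ i, p i * g i + ∑ i, y i * q i) =
      (x * p0) * f + ∑ i, (x * p i) * g i + ∑ i, y i * (x * q i) := by
  rw [mul_add, mul_add, Finset.mul_sum, Finset.mul_sum, mul_assoc]
  congr 1
  · congr 1
    exact Finset.sum_congr rfl fun i _ => (mul_assoc _ _ _).symm
  · exact Finset.sum_congr rfl fun i _ => by ring

theorem koup : TaskKOUP := by
  intro hK1 hK2 hK3 hK4 r N v a hnd
  classical
  have key : ∀ c : Fin r → ℂ, Toric v c → ToricP v c → ∑ j, a j * c j = 0 →
      (∀ i, ∑ j, a j * (v j i : ℂ) * c j = 0) → c = 0 := by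
    intro c hT hTP h0 hi
    by_contra hc
    have hne : ∃ j, c j ≠ 0 := by
      by_contra hall
      push Not at hall
      exact hc (funext hall)
    set J : Finset (Fin r) := Finset.univ.filter (fun j => c j ≠ 0) with hJ
    have hJm : ∀ j, j ∈ J ↔ c j ≠ 0 := by
      intro j
      simp [hJ]
    have hJne : J.Nonempty := by
      obtain ⟨j, hj⟩ := hne
      exact ⟨j, (hJm j).2 hj⟩
    obtain ⟨w, hwp, hw⟩ := hK2 r N v J hJne (by
      intro n n' hs hv hsub
      have h2 : ∏ j, c j ^ n' j ≠ 0 := by
        rw [Finset.prod_ne_zero_iff]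
        intro j' _
        by_cases hn : n' j' = 0
        · rw [hn, pow_zero]
          exact one_ne_zero
        · exact pow_ne_zero _ ((hJm j').1 (hsub j' hn))
      have heq : ∀ i, ∑ j, n j * v j i = ∑ j, n' j * v j i := by
        intro i
        by_contra hne'
        exact h2 (hTP n n' hs hv ⟨i, lt_of_le_of_ne (hv i) hne'⟩)
      refine ⟨heq, ?_⟩
      intro j hj
      rw [hJm]
      have h1 := hT n n' hs heq
      rw [← h1, Finset.prod_ne_zero_iff] at h2
      intro hcj
      apply h2 j (Finset.mem_univ _)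
      rw [hcj, zero_pow hj])
    obtain ⟨z, t, ht, hz, hcz⟩ := hK3 r N v c hT
    refine hnd w hwp z hz ⟨?_, fun i => ?_⟩
    · have : t * (∑ j, if onFace v w j then a j * ∏ i, z i ^ v j i else 0) =
          ∑ j, a j * c j := by
        rw [Finset.mul_sum]
        refine Finset.sum_congr rfl fun j _ => ?_
        by_cases hj : onFace v w j
        · have hj' := (hJm j).1 ((hw j).1 hj)
          rw [if_pos hj]
          conv_rhs => rw [hcz j hj']
          ring
        · have hj' : c j = 0 := by
            by_contra hh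
            exact hj ((hw j).2 ((hJm j).2 hh))
          rw [if_neg hj, hj', mul_zero, mul_zero]
      rw [h0] at this
      exact (mul_eq_zero.1 this).resolve_left ht
    · have : t * (∑ j, if onFace v w j then a j * (v j i : ℂ) * ∏ i, z i ^ v j i else 0) =
          ∑ j, a j * (v j i : ℂ) * c j := by
        rw [Finset.mul_sum]
        refine Finset.sum_congr rfl fun j _ => ?_
        by_cases hj : onFace v w j
        · have hj' := (hJm j).1 ((hw j).1 hj)
          rw [if_pos hj]
          conv_rhs => rw [hcz j hj']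
          ring
        · have hj' : c j = 0 := by
            by_contra hh
            exact hj ((hw j).2 ((hJm j).2 hh))
          rw [if_neg hj, hj', mul_zero, mul_zero]
      rw [hi i] at this
      exact (mul_eq_zero.1 this).resolve_left ht
  obtain ⟨n, hn, hgen⟩ := hK4 r N v a key
  refine ⟨n + N + 1, fun m hm c hc => ?_⟩
  obtain ⟨α, c', hα, hcc, hc'⟩ := stepP hK1 v n (m + 1) c hc (by omega)
  obtain ⟨p0, p, q, hp0, hp, hq, heq⟩ := hgen α hα
  have hmm : m + 1 - n + (n - 1) = m := by omega
  have hmm' : m + 1 - n + n = m + 1 := by omega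
  refine ⟨monomial c' 1 * p0, fun i => monomial c' 1 * p i, fun i => monomial c' 1 * q i,
    ?_, fun i => ?_, fun i => ?_, ?_⟩
  · have := supP_mono hc' hp0
    rwa [hmm] at this
  · have := supP_mono hc' (hp i)
    rwa [hmm] at this
  · have := supP_mono hc' (hq i)
    rwa [hmm'] at this
  · have hc1 : c = c' + Finsupp.equivFunOnFinite.symm fun i => ∑ j, α j * v j i := by
      ext i
      rw [hcc i, Finsupp.add_apply, Finsupp.equivFunOnFinite_symm_apply_apply, add_comm]
    have hmon : monomial c (1 : ℂ) = monomial c' 1 *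
        monomial (Finsupp.equivFunOnFinite.symm fun i => ∑ j, α j * v j i) 1 := by
      rw [monomial_mul, mul_one, ← hc1]
    have hfin := hmon.trans (congrArg (fun q => monomial c' (1 : ℂ) * q) heq)
    exact hfin.trans (rlP (monomial c' 1) p0 (spa v a) p (fun i => X i * pderiv i (spa v a))
      X q)

end Pool.Agent.Y239.CF
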